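import Pool.Agent.helper42.PD.Main

/-!
# Packing density of convex polygons with at most five vertices

Every convex polygon `K` with at most five vertices has packing density at least
`(5 - √5) / 3 = 0.9213…`; in particular larger than the density `0.8927…` of the best known
packing by regular heptagons.
-/

open scoped ENNReal
open Pool.Agent.helper42.PD

namespace Pool.Agent.Results.MP_7b496a_co.PentagonDensity

/-- Let `K` be the convex hull of at most five points of the plane, with nonempty interior.  Then
the packing density of `K` is at least `(5 - √5) / 3`, and larger than `0.9213`. -/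
theorem result (S : Finset Plane) (hS : S.card ≤ 5)
    (hne : (interior (convexHull ℝ (S : Set Plane))).Nonempty) :
    ENNReal.ofReal ((5 - Real.sqrt 5) / 3) ≤ packingDensity (convexHull ℝ (S : Set Plane)) ∧
      ENNReal.ofReal (0.9213 : ℝ) < packingDensity (convexHull ℝ (S : Set Plane)) := by
  have h := main S hS hne
  refine ⟨h, lt_of_lt_of_le ?_ h⟩
  have h5 : Real.sqrt 5 < 2.2361 := by
    rw [show (2.2361 : ℝ) = Real.sqrt (2.2361 ^ 2) by
      rw [Real.sqrt_sq (by norm_num)]]
    exact Real.sqrt_lt_sqrt (by norm_num) (by norm_num)
  rw [ENNReal.ofReal_lt_ofReal_iff (by linarith)]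
  linarith

end Pool.Agent.Results.MP_7b496a_co.PentagonDensity
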