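import Pool.Agent.helper79.RS.Main2

/-!
# Packing density of convex bodies with a rotational symmetry

Let `d₇ = (2 / 97) (-111 + 492 cos (π / 7) - 356 cos ^ 2 (π / 7)) = 0.89269…`, the density of the
best known packing by regular heptagons.  If a plane convex body `K` is mapped into itself by a
rotation by `2 π / n`, `n ≥ 5`, then every affine image of `K` has packing density at least `d₇`;
and if `K` is not a regular heptagon, then the packing densities of the affine images of `K` are
bounded below by a number larger than `d₇`.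
-/

open scoped ENNReal
open Pool.Agent.helper42.PD

namespace Pool.Agent.Results.MP_7b496a_co.RotationalSymmetry

/-- The rotation about `c` by the angle `θ`. -/
noncomputable def rotAbout (c : Plane) (θ : ℝ) (z : Plane) : Plane :=
  !₂[c 0 + (Real.cos θ * (z 0 - c 0) - Real.sin θ * (z 1 - c 1)),
    c 1 + (Real.sin θ * (z 0 - c 0) + Real.cos θ * (z 1 - c 1))]

/-- `K` is a regular heptagon: the convex hull of the seven points which arise from a point `p`
by the rotations about a point `c ≠ p` by the angles `2 π k / 7`. -/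
def IsRegularHeptagon (K : Set Plane) : Prop :=
  ∃ c p : Plane, p ≠ c ∧
    K = convexHull ℝ (Set.range fun k : Fin 7 => rotAbout c (2 * Real.pi * (k : ℕ) / 7) p)

/-- The density of the best known packing by regular heptagons. -/
noncomputable def d7 : ℝ :=
  2 / 97 * (-111 + 492 * Real.cos (Real.pi / 7) - 356 * Real.cos (Real.pi / 7) ^ 2)

open Pool.Agent.helper79.RS in
theorem rotAbout_eq (c : Plane) (θ : ℝ) (z : Plane) : rotAbout c θ z = c + rot θ (z - c) := by
  apply plane_ext
  · simp [rotAbout]
  · simp [rotAbout]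

open Pool.Agent.helper79.RS in
theorem isRegularHeptagon_of {K : Set Plane} (h : Reg7 K) : IsRegularHeptagon K := by
  obtain ⟨o, v, hv, rfl⟩ := h
  refine ⟨o, o + v, by simpa using hv, ?_⟩
  congr 1
  ext z
  constructor
  · rintro ⟨k, rfl⟩
    refine ⟨⟨k % 7, Nat.mod_lt _ (by norm_num)⟩, ?_⟩
    change rotAbout o (2 * Real.pi * ((k % 7 : ℕ) : ℝ) / 7) (o + v) = _
    rw [rotAbout_eq, add_sub_cancel_left]
    congr 1
    have h1 : (k : ℝ) = ((k % 7 : ℕ) : ℝ) + 7 * ((k / 7 : ℕ) : ℝ) := by
      exact_mod_cast (Nat.mod_add_div k 7).symm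
    have h2 : 2 * Real.pi / 7 * (k : ℝ) =
        2 * Real.pi * ((k % 7 : ℕ) : ℝ) / 7 + ((k / 7 : ℕ) : ℤ) * (2 * Real.pi) := by
      rw [h1, Int.cast_natCast]
      ring
    rw [h2, rot_two_pi_mul]
  · rintro ⟨k, rfl⟩
    refine ⟨k, ?_⟩
    change rotAbout o (2 * Real.pi * ((k : ℕ) : ℝ) / 7) (o + v) = _
    rw [rotAbout_eq, add_sub_cancel_left]
    congr 2
    ring

/-- Let `K` be a compact convex set with nonempty interior in the plane which is mapped into
itself by the rotation by `2 π / n` about a point `c`, where `n ≥ 5`.  Then every affine image of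
`K` has packing density at least `d7`.  If `K` is not a regular heptagon, then there is a number
larger than `d7` which is a lower bound for the packing densities of all affine images of `K`.
Moreover `0.89269 < d7`. -/
theorem result (n : ℕ) (hn : 5 ≤ n) (K : Set Plane) (hK : Convex ℝ K) (hc : IsCompact K)
    (hi : (interior K).Nonempty) (c : Plane)
    (hrot : ∀ z ∈ K, rotAbout c (2 * Real.pi / n) z ∈ K) :
    (∀ T : Plane ≃ᵃ[ℝ] Plane, ENNReal.ofReal d7 ≤ packingDensity (T '' K)) ∧
    (¬ IsRegularHeptagon K → ∃ d : ℝ, d7 < d ∧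
      ∀ T : Plane ≃ᵃ[ℝ] Plane, ENNReal.ofReal d ≤ packingDensity (T '' K)) ∧
    0.89269 < d7 := by
  have hr : Pool.Agent.helper79.RS.HasRot n K := ⟨c, fun z hz => by
    rw [← rotAbout_eq]
    exact hrot z hz⟩
  refine ⟨Pool.Agent.helper79.RS.main_aff hn hK hc hi hr, ?_, ?_⟩
  · intro hne
    rcases Pool.Agent.helper79.RS.main_strict hn hK hc hi hr with h | ⟨d, h1, h2⟩
    · exact absurd (isRegularHeptagon_of h) hne
    · exact ⟨d, h1, h2⟩
  · have h := Pool.Agent.helper79.RS.hept.dlo
    unfold Pool.Agent.helper79.RS.dens at h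
    unfold d7
    linarith

end Pool.Agent.Results.MP_7b496a_co.RotationalSymmetry
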